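import Pool.Agent.H87.HFS.UW1

/-!
# The local classes at a small prime (row HCL)
-/

set_option autoImplicit false

open Finset Pool.Agent.H32.RQ Pool.Agent.H34.FQ

namespace Pool.Agent.H87.HFS

open Pool.Agent.H34.FS

theorem dq_cast (R : Type) [CommRing R] {s : ℕ} (f : Mon s → ℤ) (x : Fin s → ℤ) (j : Fin s) :
    ((dq f x j : ℤ) : R) = dq (fun p => (f p : R)) (fun j => (x j : R)) j := by
  simp only [dq, Int.cast_sum, Int.cast_mul, Int.cast_add]
  refine Finset.sum_congr rfl fun p _ => ?_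
  congr 1
  congr 1 <;> split_ifs <;> simp

theorem jm_cast (R : Type) [CommRing R] {s : ℕ} (c : Fin 2 → Mon s → ℤ) (x : Fin s → ℤ)
    (j l : Fin s) :
    ((jm c x j l : ℤ) : R) = jm (cm R c) (fun j => (x j : R)) j l := by
  simp only [jm, Int.cast_sub, Int.cast_mul, dq_cast]
  rfl

theorem qf_congr {s : ℕ} (d : ℕ) (f : Mon s → ℤ) (x y : Fin s → ℤ) (h : ∀ j, (d : ℤ) ∣ y j - x j) :
    (d : ℤ) ∣ qf f y - qf f x := by
  rw [← ZMod.intCast_eq_intCast_iff_dvd_sub, qf_cast, qf_cast]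
  have : (fun j => (x j : ZMod d)) = fun j => (y j : ZMod d) := by
    funext j
    exact (ZMod.intCast_eq_intCast_iff_dvd_sub _ _ _).2 (h j)
  rw [this]

theorem jm_congr {s : ℕ} (d : ℕ) (c : Fin 2 → Mon s → ℤ) (x y : Fin s → ℤ)
    (h : ∀ j, (d : ℤ) ∣ y j - x j) (j l : Fin s) :
    (d : ℤ) ∣ jm c y j l - jm c x j l := by
  rw [← ZMod.intCast_eq_intCast_iff_dvd_sub, jm_cast, jm_cast]
  have : (fun j => (x j : ZMod d)) = fun j => (y j : ZMod d) := by
    funext j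
    exact (ZMod.intCast_eq_intCast_iff_dvd_sub _ _ _).2 (h j)
  rw [this]

theorem card_compl_two {s : ℕ} {a b : Fin s} (hab : a ≠ b) :
    Fintype.card {j : Fin s // j ≠ a ∧ j ≠ b} = s - 2 := by
  classical
  rw [Fintype.card_subtype]
  have : (Finset.univ.filter fun j : Fin s => j ≠ a ∧ j ≠ b) = Finset.univ \ {a, b} := by
    ext j
    simp [not_or]
  rw [this, Finset.card_sdiff_of_subset (Finset.subset_univ _), Finset.card_pair hab,
    Finset.card_univ, Fintype.card_fin]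

theorem cv_dvd {r : ℕ} (d c c' : ℤ) (v w : Fin r → ℤ) (hc : d ∣ c - c')
    (h : ∀ i, d ∣ v i - w i) : ∀ i, d ∣ cv c v i - cv c' w i := by
  intro i
  refine Fin.cases ?_ (fun j => ?_) i
  · exact hc
  · exact h j

theorem pf_HCL (hHEN : T_HEN) (hGGE : T_GGE) : T_HCL := by
  classical
  have _ := hGGE
  intro r F L p t j k m' hp hm' htk hR
  obtain ⟨τ, u, hτt, hju, hG, a, b, hi⟩ := hR
  set c : ℤ := (p : ℤ) ^ j with hc
  have hp0 : (p : ℤ) ≠ 0 := by exact_mod_cast hp.ne_zero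
  have ha : ¬ (p : ℤ) ∣ (m' : ℤ) := fun h => hm' (Int.natCast_dvd_natCast.1 h)
  have hex : ∃ n : ℕ, ¬ (p : ℤ) ^ n ∣ jm (gg F L) (cv c u) a.succ b.succ := ⟨τ, hi⟩
  have hab : a ≠ b := by
    rintro rfl
    apply hi
    simp [jm]
  obtain ⟨δ, hδτ, hδ1, hδ2⟩ : ∃ δ : ℕ, δ < τ ∧ (p : ℤ) ^ δ ∣ jm (gg F L) (cv c u) a.succ b.succ ∧
      ¬ (p : ℤ) ^ (δ + 1) ∣ jm (gg F L) (cv c u) a.succ b.succ := by
    have hf := Nat.find_spec hex
    have hpos : Nat.find hex ≠ 0 := by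
      intro h0
      rw [h0] at hf
      simp at hf
    obtain ⟨δ, hδ⟩ := Nat.exists_eq_succ_of_ne_zero hpos
    refine ⟨δ, ?_, ?_, ?_⟩
    · have : Nat.find hex ≤ τ := Nat.find_min' hex hi
      omega
    · have := Nat.find_min hex (m := δ) (by omega)
      exact not_not.1 this
    · rw [hδ] at hf
      exact hf
  set m := k - 2 * t with hm
  have hmk : 2 * t + m = k := by omega
  let xw : ({l : Fin r // l ≠ a ∧ l ≠ b} → Fin (p ^ m)) → Fin r → ℤ := fun z l =>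
    u l + (p : ℤ) ^ (2 * t) * (if h : l ≠ a ∧ l ≠ b then ((z ⟨l, h⟩ : ℕ) : ℤ) else 0)
  have hxw : ∀ z l, ((p ^ (2 * t) : ℕ) : ℤ) ∣ xw z l - u l := by
    intro z l
    refine ⟨(if h : l ≠ a ∧ l ≠ b then ((z ⟨l, h⟩ : ℕ) : ℤ) else 0), ?_⟩
    simp only [xw]
    push_cast
    ring
  have hy : ∀ z, ∃ y : Fin r → ℤ, (∀ l, l ≠ a → l ≠ b → y l = xw z l) ∧
      (∀ l, (p : ℤ) ^ (δ + 1) ∣ y l - xw z l) ∧
      ∀ i, (p : ℤ) ^ k ∣ qf (gg F L i) (cv c y) := by
    intro z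
    have hcv := cv_dvd ((p ^ (2 * t) : ℕ) : ℤ) c c (xw z) u (by simp) (hxw z)
    have h1 := jm_congr (p ^ (2 * t)) (gg F L) (cv c u) (cv c (xw z)) hcv a.succ b.succ
    push_cast at h1
    obtain ⟨y', hy1, hy2, hy3⟩ := hHEN (r + 1) p δ k (gg F L) (cv c (xw z)) a.succ b.succ hp
      (by
        have := dvd_add ((pow_dvd_pow (p : ℤ) (by omega : δ ≤ 2 * t)).trans h1) hδ1
        rwa [sub_add_cancel] at this)
      (by
        intro h2
        apply hδ2
        have := dvd_sub h2 ((pow_dvd_pow (p : ℤ) (by omega : δ + 1 ≤ 2 * t)).trans h1)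
        rwa [sub_sub_cancel] at this)
      (by
        intro i
        have h3 := qf_congr (p ^ (2 * t)) (gg F L i) (cv c u) (cv c (xw z)) hcv
        push_cast at h3
        have := dvd_add ((pow_dvd_pow (p : ℤ) (by omega : 2 * δ + 1 ≤ 2 * t)).trans h3)
          ((pow_dvd_pow (p : ℤ) (by omega : 2 * δ + 1 ≤ 2 * τ)).trans (hG i))
        rwa [sub_add_cancel] at this)
    have hy0 : y' = cv c (fun l => y' l.succ) := by
      funext i
      refine Fin.cases ?_ (fun l => ?_) i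
      · rw [hy1 0 (Fin.succ_ne_zero a).symm (Fin.succ_ne_zero b).symm]
        rfl
      · rfl
    refine ⟨fun l => y' l.succ, fun l hl1 hl2 => ?_, fun l => ?_, fun i => ?_⟩
    · exact hy1 l.succ (fun h => hl1 (Fin.succ_inj.1 h)) (fun h => hl2 (Fin.succ_inj.1 h))
    · exact hy2 l.succ
    · rw [← hy0]
      exact hy3 i
  choose y hy1 hy2 hy3 using hy
  have hpk : (0 : ℤ) < ((p ^ k : ℕ) : ℤ) := by
    have := pow_pos hp.pos k
    exact_mod_cast this
  let g : ({l : Fin r // l ≠ a ∧ l ≠ b} → Fin (p ^ m)) → Fin r → ℤ :=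
    fun z l => ((m' : ℤ) * y z l) % ((p ^ k : ℕ) : ℤ)
  have hgc : ∀ z l, ((p ^ k : ℕ) : ℤ) ∣ g z l - (m' : ℤ) * y z l := by
    intro z l
    simp only [g]
    rw [Int.emod_def]
    exact ⟨-(((m' : ℤ) * y z l) / ((p ^ k : ℕ) : ℤ)), by ring⟩
  have hmem : ∀ z, g z ∈ UL F (p ^ j * m') (p ^ k) L := by
    intro z
    unfold UL
    rw [Finset.mem_filter, Fintype.mem_piFinset]
    refine ⟨fun l => ?_, fun i => ?_, ?_⟩
    · rw [Finset.mem_Ico]
      exact ⟨Int.emod_nonneg _ hpk.ne', Int.emod_lt_of_pos _ hpk⟩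
    · have h1 := qf_congr (p ^ k) (gg F L i)
        (cv ((p ^ j * m' : ℕ) : ℤ) (fun l => (m' : ℤ) * y z l))
        (cv ((p ^ j * m' : ℕ) : ℤ) (g z)) (cv_dvd _ _ _ _ _ (by simp) (hgc z))
      have h2 : qf (gg F L i) (cv ((p ^ j * m' : ℕ) : ℤ) (fun l => (m' : ℤ) * y z l)) =
          (m' : ℤ) ^ 2 * qf (gg F L i) (cv c (y z)) := by
        rw [← qf_smul, ← cv_smul, hc]
        congr 2
        push_cast
        ring
      rw [h2] at h1
      have h3 := dvd_add h1 (Dvd.dvd.mul_left (by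
        have := hy3 z i
        push_cast
        exact this : ((p ^ k : ℕ) : ℤ) ∣ qf (gg F L i) (cv c (y z))) ((m' : ℤ) ^ 2))
      rwa [sub_add_cancel] at h3
    · intro p' hp' hpp hpc
      have hpe : p' = p := (Nat.prime_dvd_prime_iff_eq hp' hp).1 (hp'.dvd_of_dvd_pow hpp)
      subst hpe
      have hj0 : j ≠ 0 := by
        rintro rfl
        rw [pow_zero, one_mul] at hpc
        exact hm' hpc
      obtain ⟨i, hui⟩ := hju hj0
      refine ⟨i, fun hcon => hui ?_⟩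
      have e1 : (p' : ℤ) ∣ g z i - (m' : ℤ) * y z i := by
        have := hgc z i
        push_cast at this
        exact (dvd_pow_self _ (by omega)).trans this
      have e2 : (p' : ℤ) ∣ (m' : ℤ) * y z i := by
        have := dvd_sub hcon e1
        rwa [sub_sub_cancel] at this
      have e3 : (p' : ℤ) ∣ y z i := by
        rcases (Nat.prime_iff_prime_int.1 hp).dvd_or_dvd e2 with h | h
        · exact absurd h ha
        · exact h
      have e4 : (p' : ℤ) ∣ y z i - xw z i := (dvd_pow_self _ (by omega)).trans (hy2 z i)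
      have e5 : (p' : ℤ) ∣ xw z i - u i := by
        have := hxw z i
        push_cast at this
        exact (dvd_pow_self _ (by omega)).trans this
      have e6 := dvd_sub e3 (dvd_add e4 e5)
      rwa [show y z i - (y z i - xw z i + (xw z i - u i)) = u i from by ring] at e6
  have hinj : Function.Injective g := by
    intro z z' h
    funext ⟨l, hl⟩
    have h1 : g z l = g z' l := congrFun h l
    have h2 : (p : ℤ) ^ k ∣ (m' : ℤ) * (y z l - y z' l) := by
      have e1 := hgc z l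
      have e2 := hgc z' l
      rw [h1] at e1
      have e3 := dvd_sub e2 e1
      push_cast at e3
      rwa [show g z' l - (m' : ℤ) * y z' l - (g z' l - (m' : ℤ) * y z l) =
        (m' : ℤ) * (y z l - y z' l) from by ring] at e3
    have h3 : (p : ℤ) ^ k ∣ y z l - y z' l :=
      (((Nat.prime_iff_prime_int.1 hp).irreducible.coprime_iff_not_dvd.2 ha).pow_left).dvd_of_dvd_mul_left
        h2
    rw [hy1 z l hl.1 hl.2, hy1 z' l hl.1 hl.2] at h3
    simp only [xw] at h3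
    rw [dif_pos hl, dif_pos hl] at h3
    have h4 : (p : ℤ) ^ (2 * t) * (p : ℤ) ^ m ∣ (p : ℤ) ^ (2 * t) *
        (((z ⟨l, hl⟩ : ℕ) : ℤ) - ((z' ⟨l, hl⟩ : ℕ) : ℤ)) := by
      rw [← pow_add, hmk]
      rwa [show u l + (p : ℤ) ^ (2 * t) * ((z ⟨l, hl⟩ : ℕ) : ℤ) -
          (u l + (p : ℤ) ^ (2 * t) * ((z' ⟨l, hl⟩ : ℕ) : ℤ)) =
          (p : ℤ) ^ (2 * t) * (((z ⟨l, hl⟩ : ℕ) : ℤ) - ((z' ⟨l, hl⟩ : ℕ) : ℤ)) from by ring]
        at h3
    have h5 := Int.dvd_of_mul_dvd_mul_left (pow_ne_zero _ hp0) h4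
    have h6 : ((z ⟨l, hl⟩ : ℕ) : ℤ) - ((z' ⟨l, hl⟩ : ℕ) : ℤ) = 0 := by
      refine Int.eq_zero_of_abs_lt_dvd h5 ?_
      have e1 := (z ⟨l, hl⟩).isLt
      have e2 := (z' ⟨l, hl⟩).isLt
      have e3 : ((z ⟨l, hl⟩ : ℕ) : ℤ) < (p : ℤ) ^ m := by exact_mod_cast e1
      have e4 : ((z' ⟨l, hl⟩ : ℕ) : ℤ) < (p : ℤ) ^ m := by exact_mod_cast e2
      rw [abs_lt]
      constructor <;> omega
    apply Fin.ext
    have := sub_eq_zero.1 h6
    exact_mod_cast this
  have hcard : Fintype.card ({l : Fin r // l ≠ a ∧ l ≠ b} → Fin (p ^ m)) ≤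
      (UL F (p ^ j * m') (p ^ k) L).card := by
    rw [← Finset.card_univ]
    exact Finset.card_le_card_of_injOn g (fun z _ => hmem z) (fun z _ z' _ h => hinj h)
  refine le_trans ?_ hcard
  rw [Fintype.card_fun, Fintype.card_fin, card_compl_two hab, ← pow_mul]

end Pool.Agent.H87.HFS
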