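import Pool.Agent.H87.HFS.HCL

/-!
# The pairs of linear forms which are bad at a prime are rare (row PNL)
-/

set_option autoImplicit false

open Finset Pool.Agent.H32.RQ Pool.Agent.H34.FQ

namespace Pool.Agent.H87.HFS

open Pool.Agent.H34.FS

theorem gg_cast0 (R : Type) [CommRing R] {r : ℕ} (F : Fin 2 → Mon r → ℤ)
    (L : Fin 2 → Fin (r + 1) → ℤ) : cm R (gg F L) = gg (cm R F) (cL R L) := by
  funext i p
  show ((gf (F i) (L i) p : ℤ) : R) = gf (cm R F i) (cL R L i) p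
  unfold gf
  split_ifs
  · rfl
  · rfl

theorem pf_PNL (hPML : T_PML) (hTBL : T_TBL) : T_PNL := by
  classical
  intro r F p hr hF hp
  obtain ⟨C, hC, h⟩ := hPML r F p hr hF hp
  refine ⟨2 ^ (2 * (r + 1)) * C, by positivity, fun t A htA => ?_⟩
  haveI : NeZero (p ^ t) := ⟨pow_ne_zero _ hp.ne_zero⟩
  have h1 := h t
  set E : Finset (Fin 2 → Fin (r + 1) → ZMod (p ^ t)) :=
    (Finset.univ.filter fun L : Fin 2 → Fin (r + 1) → ZMod (p ^ t) =>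
      ∃ z : Fin (r + 1) → ZMod (p ^ t), (∃ i, IsUnit (z i)) ∧
        (∀ i, qf (gg (cm (ZMod (p ^ t)) F) L i) z = 0) ∧
        ∀ a b, jm (gg (cm (ZMod (p ^ t)) F) L) z a b = 0) with hE
  have h2 := (hTBL r A).2 (p ^ t) E htA
  have hsub : ((bL r A).filter fun L => NP t p (gg F L)) ⊆
      ((bL r A).filter fun L => cL (ZMod (p ^ t)) L ∈ E) := by
    intro L hL
    rw [Finset.mem_filter] at hL ⊢
    refine ⟨hL.1, ?_⟩
    obtain ⟨x, ⟨i₀, hi₀⟩, hq, hj⟩ := hL.2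
    rw [hE, Finset.mem_filter]
    refine ⟨Finset.mem_univ _, fun j => (x j : ZMod (p ^ t)), ⟨i₀, ?_⟩, fun i => ?_,
      fun a b => ?_⟩
    · have h3 : IsCoprime (((p ^ t : ℕ)) : ℤ) (x i₀) := by
        push_cast
        apply IsCoprime.pow_left
        exact (Nat.prime_iff_prime_int.1 hp).coprime_iff_not_dvd.2 hi₀
      exact (ZMod.coe_int_isUnit_iff_isCoprime _ _).2 h3
    · have h3 := qf_cast (ZMod (p ^ t)) (gg F L i) x
      have h4 : (fun p_1 => ((gg F L i p_1 : ℤ) : ZMod (p ^ t))) =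
          gg (cm (ZMod (p ^ t)) F) (cL (ZMod (p ^ t)) L) i :=
        congrFun (gg_cast0 (ZMod (p ^ t)) F L) i
      rw [h4] at h3
      rw [← h3, ZMod.intCast_zmod_eq_zero_iff_dvd]
      push_cast
      exact hq i
    · rw [← gg_cast0, ← jm_cast, ZMod.intCast_zmod_eq_zero_iff_dvd]
      push_cast
      exact hj a b
  have h3 := Finset.card_le_card hsub
  set N := ((bL r A).filter fun L => NP t p (gg F L)).card with hN
  set N' := ((bL r A).filter fun L => cL (ZMod (p ^ t)) L ∈ E).card with hN'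
  have h4 : (N : ℝ) * ((p : ℝ) ^ t) ^ (2 * (r + 1)) ≤
      2 ^ (2 * (r + 1)) * (2 * (A : ℝ) + 1) ^ (2 * (r + 1)) * (E.card : ℝ) := by
    have h5 : N * (p ^ t) ^ (2 * (r + 1)) ≤
        2 ^ (2 * (r + 1)) * (2 * A + 1) ^ (2 * (r + 1)) * E.card :=
      le_trans (Nat.mul_le_mul_right _ h3) h2
    exact_mod_cast h5
  have hM : (0 : ℝ) < ((p : ℝ) ^ t) ^ (2 * (r + 1)) := by
    have : (0 : ℝ) < p := by exact_mod_cast hp.pos
    positivity
  have hpt : (0 : ℝ) ≤ (p : ℝ) ^ t := by positivity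
  have h6 : (N : ℝ) * (p : ℝ) ^ t * ((p : ℝ) ^ t) ^ (2 * (r + 1)) ≤
      2 ^ (2 * (r + 1)) * C * (2 * (A : ℝ) + 1) ^ (2 * (r + 1)) *
        ((p : ℝ) ^ t) ^ (2 * (r + 1)) := by
    have e1 := mul_le_mul_of_nonneg_right h4 hpt
    have e2 : 2 ^ (2 * (r + 1)) * (2 * (A : ℝ) + 1) ^ (2 * (r + 1)) *
        ((E.card : ℝ) * (p : ℝ) ^ t) ≤ 2 ^ (2 * (r + 1)) * (2 * (A : ℝ) + 1) ^ (2 * (r + 1)) *
        (C * ((p : ℝ) ^ t) ^ (2 * (r + 1))) :=
      mul_le_mul_of_nonneg_left h1 (by positivity)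
    calc (N : ℝ) * (p : ℝ) ^ t * ((p : ℝ) ^ t) ^ (2 * (r + 1))
        = (N : ℝ) * ((p : ℝ) ^ t) ^ (2 * (r + 1)) * (p : ℝ) ^ t := by ring
      _ ≤ 2 ^ (2 * (r + 1)) * (2 * (A : ℝ) + 1) ^ (2 * (r + 1)) * (E.card : ℝ) *
          (p : ℝ) ^ t := e1
      _ = 2 ^ (2 * (r + 1)) * (2 * (A : ℝ) + 1) ^ (2 * (r + 1)) *
          ((E.card : ℝ) * (p : ℝ) ^ t) := by ring
      _ ≤ 2 ^ (2 * (r + 1)) * (2 * (A : ℝ) + 1) ^ (2 * (r + 1)) *
          (C * ((p : ℝ) ^ t) ^ (2 * (r + 1))) := e2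
      _ = _ := by ring
  exact le_of_mul_le_mul_right h6 hM

end Pool.Agent.H87.HFS
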