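import Pool.Agent.H34.FS.Targets

/-!
# The local classes at the large primes (row UW1)
-/

set_option autoImplicit false

open Finset Pool.Agent.H32.RQ Pool.Agent.H34.FQ

namespace Pool.Agent.H87.HFS

open Pool.Agent.H34.FS

theorem qf_smul {R : Type} [CommRing R] {s : ℕ} (f : Mon s → R) (c : R) (x : Fin s → R) :
    qf f (fun i => c * x i) = c ^ 2 * qf f x := by
  unfold qf
  rw [mul_sum]
  refine sum_congr rfl fun p _ => ?_
  ring

theorem cv_smul {R : Type} [CommRing R] {n : ℕ} (c a : R) (v : Fin n → R) :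
    cv (c * a) (fun i => c * v i) = fun i => c * cv a v i := by
  funext i
  refine Fin.cases ?_ (fun j => ?_) i <;> rfl

theorem cv_map {A B : Type} {n : ℕ} (φ : A → B) (a : A) (v : Fin n → A) :
    (fun j => φ (cv a v j)) = cv (φ a) (fun i => φ (v i)) := by
  funext i
  refine Fin.cases ?_ (fun j => ?_) i <;> rfl

theorem qf_cast (R : Type) [CommRing R] {s : ℕ} (f : Mon s → ℤ) (x : Fin s → ℤ) :
    ((qf f x : ℤ) : R) = qf (fun p => (f p : R)) (fun j => (x j : R)) := by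
  simp only [qf, Int.cast_sum, Int.cast_mul]

theorem gg_cast (hGGE : T_GGE) (R : Type) [CommRing R] {r : ℕ} (F : Fin 2 → Mon r → ℤ)
    (L : Fin 2 → Fin (r + 1) → ℤ) (i : Fin 2) :
    (fun p => ((gg F L i p : ℤ) : R)) = gg (cm R F) (cL R L) i := by
  funext p
  have h := (hGGE ℤ r (F i) (L i) 0 0).2.2.2 R (Int.castRingHom R) p
  exact h

theorem qf_gg_cast (hGGE : T_GGE) (R : Type) [CommRing R] {r : ℕ} (F : Fin 2 → Mon r → ℤ)
    (L : Fin 2 → Fin (r + 1) → ℤ) (i : Fin 2) (c : ℤ) (u : Fin r → ℤ) :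
    ((qf (gg F L i) (cv c u) : ℤ) : R) =
      qf (gg (cm R F) (cL R L) i) (cv (c : R) (fun j => (u j : R))) := by
  rw [qf_cast, gg_cast hGGE, cv_map (fun z : ℤ => (z : R))]

theorem pf_UW1 (hGGE : T_GGE) : T_UW1 := by
  intro r F L m M _ hcop
  classical
  have hu : ((m : ℕ) : ZMod M)⁻¹ * (m : ZMod M) = 1 := by
    rw [mul_comm]
    exact ZMod.coe_mul_inv_eq_one m hcop
  have hu' : (m : ZMod M) * ((m : ℕ) : ZMod M)⁻¹ = 1 := ZMod.coe_mul_inv_eq_one m hcop
  have hkey : ∀ (i : Fin 2) (w : Fin r → ZMod M),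
      qf (gg (cm (ZMod M) F) (cL (ZMod M) L) i) (cv (m : ZMod M) (fun j => (m : ZMod M) * w j)) = 0 ↔
      qf (gg (cm (ZMod M) F) (cL (ZMod M) L) i) (cv 1 w) = 0 := by
    intro i w
    have h1 := cv_smul (m : ZMod M) 1 w
    rw [mul_one] at h1
    rw [h1, qf_smul]
    constructor
    · intro h2
      have h3 : ((m : ZMod M)⁻¹ * (m : ZMod M)) ^ 2 *
          qf (gg (cm (ZMod M) F) (cL (ZMod M) L) i) (cv 1 w) = 0 := by
        rw [mul_pow, mul_assoc, h2, mul_zero]
      rwa [hu, one_pow, one_mul] at h3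
    · intro h2
      rw [h2, mul_zero]
  have hP : ∀ (u : Fin r → ℤ) (p : ℕ), p.Prime → p ∣ M → p ∣ m → ∃ i, ¬ (p : ℤ) ∣ u i := by
    intro u p hp h1 h2
    exact absurd (Nat.dvd_gcd h2 h1) (by rw [hcop]; exact hp.not_dvd_one)
  unfold UL aL
  refine Finset.card_nbij' (fun u i => (m : ZMod M)⁻¹ * (u i : ZMod M))
    (fun w i => (((m : ZMod M) * w i).val : ℤ)) ?_ ?_ ?_ ?_
  · intro u hu1
    simp only [coe_filter, Fintype.mem_piFinset, mem_Ico, Set.mem_ofPred_eq, mem_univ,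
      true_and] at hu1 ⊢
    intro i
    rw [← hkey]
    have h1 : (fun i => (m : ZMod M) * ((m : ZMod M)⁻¹ * (u i : ZMod M))) =
        fun i => (u i : ZMod M) := by
      funext i
      rw [← mul_assoc, hu', one_mul]
    rw [h1]
    have h2 := (ZMod.intCast_zmod_eq_zero_iff_dvd _ M).2 (hu1.2.1 i)
    rw [qf_gg_cast hGGE] at h2
    rw [← h2]
    norm_cast
  · intro w hw
    simp only [coe_filter, Fintype.mem_piFinset, mem_Ico, Set.mem_ofPred_eq, mem_univ,
      true_and] at hw ⊢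
    refine ⟨fun i => ⟨by positivity, ?_⟩, fun i => ?_, hP _⟩
    · exact_mod_cast ZMod.val_lt _
    · rw [← ZMod.intCast_zmod_eq_zero_iff_dvd, qf_gg_cast hGGE]
      have h1 : (fun i => (((((m : ZMod M) * w i).val : ℕ) : ℤ) : ZMod M)) =
          fun i => (m : ZMod M) * w i := by
        funext i
        rw [Int.cast_natCast, ZMod.natCast_zmod_val]
      rw [h1, Int.cast_natCast]
      exact (hkey i w).2 (hw i)
  · intro u hu1
    simp only [coe_filter, Fintype.mem_piFinset, mem_Ico, Set.mem_ofPred_eq] at hu1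
    funext i
    show ((((m : ZMod M) * ((m : ZMod M)⁻¹ * (u i : ZMod M))).val : ℕ) : ℤ) = u i
    rw [← mul_assoc, hu', one_mul]
    obtain ⟨k, hk⟩ := Int.eq_ofNat_of_zero_le (hu1.1 i).1
    have h2 := (hu1.1 i).2
    rw [hk] at h2 ⊢
    have h3 : k < M := by exact_mod_cast h2
    rw [Int.cast_natCast, ZMod.val_natCast, Nat.mod_eq_of_lt h3]
  · intro w _
    funext i
    show (m : ZMod M)⁻¹ * ((((((m : ZMod M) * w i).val : ℕ) : ℤ)) : ZMod M) = w i
    rw [Int.cast_natCast, ZMod.natCast_zmod_val, ← mul_assoc, hu, one_mul]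

end Pool.Agent.H87.HFS
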